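import Pool.Agent.Helper34.R9.SheetB

/-! # Row BNDB of `Pool.Helper34.R9` (MP_798d7d_nt, rank nine): size of the members of the box
(adapted from Helper84/R8/BND.lean) -/

set_option autoImplicit false

namespace Pool.Agent.Helper58.R9B

open Pool.Helper17.R8 (ek q4 q3 q2 q1 q0 fI fJ ss)
open Pool.Helper34.R9

/-- `f` is at most `C m ^ k` on the box of size `m` -/
def BO (k : ℕ) (f : ℕ → (Fin 6 → ℕ) × ℕ → ℤ) : Prop :=
  ∃ C : ℤ, 0 ≤ C ∧ ∀ m : ℕ, 1 ≤ m → ∀ T ∈ BoxG 6 4 m, |f m T| ≤ C * (m : ℤ) ^ k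

theorem BO.mono {j k : ℕ} {f : ℕ → (Fin 6 → ℕ) × ℕ → ℤ} (h : BO j f) (hjk : j ≤ k) : BO k f := by
  obtain ⟨C, hC, H⟩ := h
  refine ⟨C, hC, fun m hm T hT => (H m hm T hT).trans ?_⟩
  have hm1 : (1 : ℤ) ≤ (m : ℤ) := by exact_mod_cast hm
  exact mul_le_mul_of_nonneg_left (pow_le_pow_right₀ hm1 hjk) hC

theorem BO.const (k : ℕ) (c : ℤ) : BO k (fun _ _ => c) := by
  refine ⟨|c|, abs_nonneg c, fun m hm T _ => ?_⟩
  have hm1 : (1 : ℤ) ≤ (m : ℤ) ^ k := one_le_pow₀ (by exact_mod_cast hm)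
  have := mul_le_mul_of_nonneg_left hm1 (abs_nonneg c)
  linarith

theorem BO.add {k : ℕ} {f g : ℕ → (Fin 6 → ℕ) × ℕ → ℤ} (hf : BO k f) (hg : BO k g) :
    BO k (fun m T => f m T + g m T) := by
  obtain ⟨C, hC, H⟩ := hf
  obtain ⟨D, hD, G⟩ := hg
  refine ⟨C + D, by linarith, fun m hm T hT => ?_⟩
  have h1 := H m hm T hT
  have h2 := G m hm T hT
  have h3 := abs_add_le (f m T) (g m T)
  rw [add_mul]
  linarith

theorem BO.neg {k : ℕ} {f : ℕ → (Fin 6 → ℕ) × ℕ → ℤ} (hf : BO k f) : BO k (fun m T => -(f m T)) := by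
  obtain ⟨C, hC, H⟩ := hf
  refine ⟨C, hC, fun m hm T hT => ?_⟩
  rw [abs_neg]
  exact H m hm T hT

theorem BO.sub {k : ℕ} {f g : ℕ → (Fin 6 → ℕ) × ℕ → ℤ} (hf : BO k f) (hg : BO k g) :
    BO k (fun m T => f m T - g m T) := by
  have h := hf.add hg.neg
  have e : (fun m T => f m T - g m T) = fun m T => f m T + -(g m T) := by
    funext m T
    ring
  rw [e]
  exact h

theorem BO.mul {j k l : ℕ} {f g : ℕ → (Fin 6 → ℕ) × ℕ → ℤ} (hf : BO j f) (hg : BO k g)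
    (hl : j + k ≤ l) : BO l (fun m T => f m T * g m T) := by
  apply BO.mono _ hl
  obtain ⟨C, hC, H⟩ := hf
  obtain ⟨D, hD, G⟩ := hg
  refine ⟨C * D, mul_nonneg hC hD, fun m hm T hT => ?_⟩
  have h1 := H m hm T hT
  have h2 := G m hm T hT
  rw [abs_mul, pow_add]
  calc |f m T| * |g m T| ≤ (C * (m : ℤ) ^ j) * (D * (m : ℤ) ^ k) :=
        mul_le_mul h1 h2 (abs_nonneg _) (le_trans (abs_nonneg _) h1)
    _ = C * D * ((m : ℤ) ^ j * (m : ℤ) ^ k) := by ring

theorem BO.cmul {k : ℕ} {f : ℕ → (Fin 6 → ℕ) × ℕ → ℤ} (c : ℤ) (hf : BO k f) :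
    BO k (fun m T => c * f m T) :=
  (BO.const 0 c).mul hf (by omega)

theorem BO.sum {ι : Type} (F : Finset ι) (k : ℕ) (f : ι → ℕ → (Fin 6 → ℕ) × ℕ → ℤ)
    (h : ∀ a ∈ F, BO k (f a)) : BO k (fun m T => ∑ a ∈ F, f a m T) := by
  classical
  induction F using Finset.induction_on with
  | empty =>
    simp only [Finset.sum_empty]
    exact BO.const k 0
  | insert a F ha ih =>
    simp only [Finset.sum_insert ha]
    exact (h a (Finset.mem_insert_self _ _)).add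
      (ih (fun b hb => h b (Finset.mem_insert_of_mem hb)))

theorem BO.prod {ι : Type} (F : Finset ι) (f : ι → ℕ → (Fin 6 → ℕ) × ℕ → ℤ)
    (h : ∀ a ∈ F, BO 1 (f a)) : BO F.card (fun m T => ∏ a ∈ F, f a m T) := by
  classical
  induction F using Finset.induction_on with
  | empty =>
    simp only [Finset.prod_empty]
    exact BO.const _ 1
  | insert a F ha ih =>
    simp only [Finset.prod_insert ha]
    exact (h a (Finset.mem_insert_self _ _)).mul
      (ih (fun b hb => h b (Finset.mem_insert_of_mem hb)))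
      (by rw [Finset.card_insert_of_notMem ha]; omega)

theorem bo_a (i : Fin 6) : BO 1 (fun _ T => (T.1 i : ℤ)) := by
  refine ⟨1, by norm_num, fun m hm T hT => ?_⟩
  unfold BoxG at hT
  rw [Finset.mem_product, Fintype.mem_piFinset] at hT
  have h1 := Finset.mem_range.1 (hT.1 i)
  rw [abs_of_nonneg (Int.natCast_nonneg _), one_mul, pow_one]
  exact_mod_cast h1.le

theorem bo_u (i : Fin 6) : BO 1 (fun _ T => uB T.1 i) := by
  have h : BO 1 (fun _ T => if i = 0 then 0 else (T.1 i : ℤ)) := by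
    by_cases hi : i = 0
    · simp only [hi, if_true]
      exact BO.const 1 0
    · simp only [hi, if_false]
      exact bo_a i
  exact (BO.const 1 (ub i)).add (BO.cmul MB (h.add (bo_a 0)))

theorem bo_z : BO 4 (fun m T => zB m + MB * (T.2 : ℤ)) := by
  have h : BO 4 (fun _ T => (T.2 : ℤ)) := by
    refine ⟨1, by norm_num, fun m hm T hT => ?_⟩
    unfold BoxG at hT
    rw [Finset.mem_product] at hT
    have h1 := Finset.mem_range.1 hT.2
    rw [abs_of_nonneg (Int.natCast_nonneg _), one_mul]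
    exact_mod_cast h1.le
  have h2 : BO 4 (fun m _ => (m : ℤ) ^ 4) := by
    refine ⟨1, by norm_num, fun m hm T hT => ?_⟩
    rw [abs_of_nonneg (by positivity), one_mul]
  exact ((BO.const 4 1937).add (BO.cmul MB h2)).add (BO.cmul MB h)

theorem bo_s (i : Fin 8) : BO 1 (fun _ T => ss (uB T.1) i) := by
  fin_cases i
  · exact bo_u 0
  · exact bo_u 1
  · exact bo_u 2
  · exact bo_u 3
  · exact bo_u 4
  · exact bo_u 5
  · exact BO.const 1 1
  · exact (((((((bo_u 0).add (bo_u 1)).add (bo_u 2)).add (bo_u 3)).add (bo_u 4)).add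
      (bo_u 5)).add (BO.const 1 1)).neg

theorem bo_e (k : ℕ) : BO k (fun _ T => ek (ss (uB T.1)) k) := by
  unfold ek
  apply BO.sum
  intro S hS
  have h := BO.prod S (fun i _ T => ss (uB T.1) i) (fun i _ => bo_s i)
  rw [(Finset.mem_powersetCard.1 hS).2] at h
  exact h

theorem bo_x3 : BO 3 (fun _ T => ss (uB T.1) 7 ^ 3) := by
  have e : (fun (_ : ℕ) (T : (Fin 6 → ℕ) × ℕ) => ss (uB T.1) 7 ^ 3) =
      fun _ T => ss (uB T.1) 7 * (ss (uB T.1) 7 * ss (uB T.1) 7) := by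
    funext m T
    ring
  rw [e]
  exact (bo_s 7).mul ((bo_s 7).mul (l := 2) (bo_s 7) (by omega)) (by omega)

theorem bo_x2 : BO 2 (fun _ T => ss (uB T.1) 7 ^ 2) := by
  have e : (fun (_ : ℕ) (T : (Fin 6 → ℕ) × ℕ) => ss (uB T.1) 7 ^ 2) =
      fun _ T => ss (uB T.1) 7 * ss (uB T.1) 7 := by
    funext m T
    ring
  rw [e]
  exact (bo_s 7).mul (bo_s 7) (by omega)

theorem bo_g1 : BO 3 (fun _ T => g1 (ek (ss (uB T.1))) (ss (uB T.1) 7)) := by
  unfold g1
  exact (bo_x3.add ((bo_e 2).mul (bo_s 7) (by omega))).sub (bo_e 3)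

theorem bo_E : BO 6 (fun _ T => EB (ek (ss (uB T.1))) (ss (uB T.1) 7)) := by
  have e : (fun (_ : ℕ) (T : (Fin 6 → ℕ) × ℕ) => EB (ek (ss (uB T.1))) (ss (uB T.1) 7)) =
      fun _ T => g1 (ek (ss (uB T.1))) (ss (uB T.1) 7) * g1 (ek (ss (uB T.1))) (ss (uB T.1) 7) -
        4 * ((ss (uB T.1) 7 ^ 3 * g1 (ek (ss (uB T.1))) (ss (uB T.1) 7) +
          ek (ss (uB T.1)) 4 * ss (uB T.1) 7 ^ 2) - ek (ss (uB T.1)) 5 * ss (uB T.1) 7) := by
    funext m T
    unfold EB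
    ring
  rw [e]
  exact (bo_g1.mul bo_g1 (by omega)).sub (BO.cmul 4
    (((bo_x3.mul bo_g1 (by omega)).add ((bo_e 4).mul bo_x2 (by omega))).sub
      ((bo_e 5).mul (bo_s 7) (by omega))))

theorem BO.div {k : ℕ} {f g : ℕ → (Fin 6 → ℕ) × ℕ → ℤ} {c : ℤ} (hc : 1 ≤ c)
    (h : ∀ m T, c * f m T = g m T) (hg : BO k g) : BO k f := by
  obtain ⟨C, hC, H⟩ := hg
  refine ⟨C, hC, fun m hm T hT => ?_⟩
  have h1 := H m hm T hT
  rw [← h, abs_mul, abs_of_nonneg (by linarith : (0 : ℤ) ≤ c)] at h1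
  have h2 : 1 * |f m T| ≤ c * |f m T| := mul_le_mul_of_nonneg_right hc (abs_nonneg _)
  linarith

theorem bo_t (hR : ST_RELB) : BO 8 tB := by
  apply BO.div (c := 4) (by norm_num) (fun m T => (hR m T).2.1)
  have e : (fun (m : ℕ) (T : (Fin 6 → ℕ) × ℕ) => EB (ek (ss (uB T.1))) (ss (uB T.1) 7) -
      (zB m + MB * (T.2 : ℤ)) ^ 2) = fun m T => EB (ek (ss (uB T.1))) (ss (uB T.1) 7) -
      (zB m + MB * (T.2 : ℤ)) * (zB m + MB * (T.2 : ℤ)) := by
    funext m T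
    ring
  rw [e]
  exact (bo_E.mono (by omega)).sub (bo_z.mul bo_z (by omega))

theorem bo_q4 (hR : ST_RELB) : BO 8 (fun m T => q4 (ek (ss (uB T.1))) (tB m T)) := by
  have e : (fun m T => q4 (ek (ss (uB T.1))) (tB m T)) =
      fun m T => ek (ss (uB T.1)) 3 * ek (ss (uB T.1)) 3 - 4 * (tB m T) := by
    funext m T
    unfold q4
    ring
  rw [e]
  exact ((bo_e 3).mul (bo_e 3) (by omega)).sub (BO.cmul 4 (bo_t hR))

theorem bo_q3 (hR : ST_RELB) : BO 10 (fun m T => q3 (ek (ss (uB T.1))) (tB m T)) := by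
  have e : (fun m T => q3 (ek (ss (uB T.1))) (tB m T)) =
      fun m T => 2 * (ek (ss (uB T.1)) 3 * ek (ss (uB T.1)) 5) -
        4 * ((tB m T) * ek (ss (uB T.1)) 2 + ek (ss (uB T.1)) 8) := by
    funext m T
    unfold q3
    ring
  rw [e]
  exact (BO.cmul 2 ((bo_e 3).mul (bo_e 5) (by omega))).sub
    (BO.cmul 4 (((bo_t hR).mul (bo_e 2) (by omega)).add ((bo_e 8).mono (by omega))))

theorem bo_q2 (hR : ST_RELB) : BO 12 (fun m T => q2 (ek (ss (uB T.1))) (tB m T)) := by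
  have e : (fun m T => q2 (ek (ss (uB T.1))) (tB m T)) =
      fun m T => (ek (ss (uB T.1)) 5 * ek (ss (uB T.1)) 5 +
        2 * (ek (ss (uB T.1)) 3 * ek (ss (uB T.1)) 7)) -
        4 * ((tB m T) * ek (ss (uB T.1)) 4 + ek (ss (uB T.1)) 8 * ek (ss (uB T.1)) 2) := by
    funext m T
    unfold q2
    ring
  rw [e]
  exact (((bo_e 5).mul (bo_e 5) (by omega)).add
    (BO.cmul 2 ((bo_e 3).mul (bo_e 7) (by omega)))).sub
    (BO.cmul 4 (((bo_t hR).mul (bo_e 4) (by omega)).add ((bo_e 8).mul (bo_e 2) (by omega))))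

theorem bo_q1 (hR : ST_RELB) : BO 16 (fun m T => q1 (ek (ss (uB T.1))) (tB m T)) := by
  have e : (fun m T => q1 (ek (ss (uB T.1))) (tB m T)) =
      fun m T => 2 * (ek (ss (uB T.1)) 5 * ek (ss (uB T.1)) 7) -
        4 * ((tB m T) * (ek (ss (uB T.1)) 6 - (tB m T)) +
          ek (ss (uB T.1)) 8 * ek (ss (uB T.1)) 4) := by
    funext m T
    unfold q1
    ring
  rw [e]
  exact (BO.cmul 2 ((bo_e 5).mul (bo_e 7) (by omega))).sub
    (BO.cmul 4 (((bo_t hR).mul (((bo_e 6).mono (k := 8) (by omega)).sub (bo_t hR))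
      (by omega)).add ((bo_e 8).mul (bo_e 4) (by omega))))

theorem bo_q0 (hR : ST_RELB) : BO 16 (fun m T => q0 (ek (ss (uB T.1))) (tB m T)) := by
  have e : (fun m T => q0 (ek (ss (uB T.1))) (tB m T)) =
      fun m T => ek (ss (uB T.1)) 7 * ek (ss (uB T.1)) 7 -
        4 * (ek (ss (uB T.1)) 8 * (ek (ss (uB T.1)) 6 - (tB m T))) := by
    funext m T
    unfold q0
    ring
  rw [e]
  exact ((bo_e 7).mul (bo_e 7) (by omega)).sub
    (BO.cmul 4 ((bo_e 8).mul (((bo_e 6).mono (k := 8) (by omega)).sub (bo_t hR)) (by omega)))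

theorem bo_I (hR : ST_RELB) : BO 26 (fun m T => fI (ek (ss (uB T.1))) (tB m T)) := by
  have e : (fun m T => fI (ek (ss (uB T.1))) (tB m T)) =
      fun m T => (12 * (q4 (ek (ss (uB T.1))) (tB m T) * q0 (ek (ss (uB T.1))) (tB m T)) -
        3 * (q3 (ek (ss (uB T.1))) (tB m T) * q1 (ek (ss (uB T.1))) (tB m T))) +
        q2 (ek (ss (uB T.1))) (tB m T) * q2 (ek (ss (uB T.1))) (tB m T) := by
    funext m T
    unfold fI
    ring
  rw [e]
  exact ((BO.cmul 12 ((bo_q4 hR).mul (bo_q0 hR) (by omega))).sub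
    (BO.cmul 3 ((bo_q3 hR).mul (bo_q1 hR) (by omega)))).add
    ((bo_q2 hR).mul (bo_q2 hR) (by omega))

theorem bo_J (hR : ST_RELB) : BO 40 (fun m T => fJ (ek (ss (uB T.1))) (tB m T)) := by
  have e : (fun m T => fJ (ek (ss (uB T.1))) (tB m T)) =
      fun m T => (((72 * ((q4 (ek (ss (uB T.1))) (tB m T) * q2 (ek (ss (uB T.1))) (tB m T)) *
          q0 (ek (ss (uB T.1))) (tB m T)) +
        9 * ((q3 (ek (ss (uB T.1))) (tB m T) * q2 (ek (ss (uB T.1))) (tB m T)) *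
          q1 (ek (ss (uB T.1))) (tB m T))) -
        27 * (q4 (ek (ss (uB T.1))) (tB m T) * (q1 (ek (ss (uB T.1))) (tB m T) *
          q1 (ek (ss (uB T.1))) (tB m T)))) -
        27 * (q0 (ek (ss (uB T.1))) (tB m T) * (q3 (ek (ss (uB T.1))) (tB m T) *
          q3 (ek (ss (uB T.1))) (tB m T)))) -
        2 * (q2 (ek (ss (uB T.1))) (tB m T) * (q2 (ek (ss (uB T.1))) (tB m T) *
          q2 (ek (ss (uB T.1))) (tB m T))) := by
    funext m T
    unfold fJ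
    ring
  rw [e]
  exact ((((BO.cmul 72 (((bo_q4 hR).mul (bo_q2 hR) (l := 20) (by omega)).mul (bo_q0 hR)
      (by omega))).add
    (BO.cmul 9 (((bo_q3 hR).mul (bo_q2 hR) (l := 22) (by omega)).mul (bo_q1 hR)
      (by omega)))).sub
    (BO.cmul 27 ((bo_q4 hR).mul ((bo_q1 hR).mul (bo_q1 hR) (l := 32) (by omega))
      (by omega)))).sub
    (BO.cmul 27 ((bo_q0 hR).mul ((bo_q3 hR).mul (bo_q3 hR) (l := 20) (by omega))
      (by omega)))).sub
    (BO.cmul 2 ((bo_q2 hR).mul ((bo_q2 hR).mul (bo_q2 hR) (l := 24) (by omega)) (by omega)))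

theorem bo_A (hR : ST_RELB) : BO 26 aB :=
  BO.div (c := 48) (by norm_num) (fun m T => (hR m T).2.2.2.1) (bo_I hR).neg

theorem bo_B (hR : ST_RELB) : BO 40 bB :=
  BO.div (c := 1728) (by norm_num) (fun m T => (hR m T).2.2.2.2.1) (bo_J hR).neg

theorem st_BNDB (hR : ST_RELB) (hRes : ST_RES2) : ST_BNDB := by
  obtain ⟨C, hC, HA⟩ := bo_A hR
  obtain ⟨D, hD, HB⟩ := bo_B hR
  obtain ⟨F, hF, HF⟩ := bo_E
  choose E hE HE using bo_e
  have hEs : 0 ≤ ∑ k ∈ Finset.range 9, E k := Finset.sum_nonneg fun k _ => hE k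
  obtain ⟨S, hS⟩ : ∃ S : ℤ, S = ∑ k ∈ Finset.range 9, E k := ⟨_, rfl⟩
  rw [← hS] at hEs
  obtain ⟨R, hR1, HR⟩ := hRes (S + 1) (by linarith)
  refine ⟨C + D + F + S + R, by linarith, fun m hm T hT => ?_⟩
  have pw : ∀ k : ℕ, (0 : ℤ) ≤ (m : ℤ) ^ k := fun k => by positivity
  have big : ∀ k : ℕ, ∀ x : ℤ, x ≤ C + D + F + S + R → x * (m : ℤ) ^ k ≤
      (C + D + F + S + R) * (m : ℤ) ^ k := fun k x hx =>
    mul_le_mul_of_nonneg_right hx (pw k)
  have hek : ∀ k, k ≤ 8 → |ek (ss (uB T.1)) k| ≤ S * (m : ℤ) ^ k := by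
    intro k hk
    have h4 : E k ≤ S := by
      rw [hS]
      exact Finset.single_le_sum (f := fun k => E k) (fun i _ => hE i)
        (Finset.mem_range.2 (by omega))
    exact (HE k m hm T hT).trans (mul_le_mul_of_nonneg_right h4 (pw k))
  refine ⟨fun k hk => ?_, ?_, ?_, ?_, ?_⟩
  · exact (hek k hk).trans (big k S (by linarith))
  · exact (HF m hm T hT).trans (big 6 F (by linarith))
  · exact (HA m hm T hT).trans (big 26 C (by linarith))
  · exact (HB m hm T hT).trans (big 40 D (by linarith))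
  · refine (HR m _ hm fun k hk => ?_).trans (big 240 R (by linarith))
    exact (hek k hk).trans (mul_le_mul_of_nonneg_right (by linarith) (pw k))

end Pool.Agent.Helper58.R9B
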